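import Pool.Agent.Lib_helper54.RM.Gcd2
import Pool.Agent.Lib_helper54.SJ.One

/-! The traceless endomorphisms from the multiplicities of the cocharacters alone. -/

set_option autoImplicit false
set_option linter.unusedSectionVars false

namespace Pool.Agent.SJ2

open Module LieModule

variable {K : Type*} [Field K] [CharZero K] [IsAlgClosed K] {g : Type*} [LieRing g]
  [LieAlgebra K g]

/-- The multiplicities m of 1/2 for the elements of P all lie in A, which satisfies the gcd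
condition, and one of them is not a binomial pair. -/
theorem onU_num (U : Type*) [AddCommGroup U] [Module K U] [FiniteDimensional K U]
    [LieRingModule g U] [LieModule K g U] [LieModule.IsIrreducible K g U] (P : Set g)
    (hP : ∀ h ∈ P, ∀ v : U, ⁅h, ⁅h, v⁆⁆ = (1 / 4 : K) • v)
    (HT : ∀ I : LieIdeal K g, (∀ h ∈ P, h ∈ I) → I = ⊤) (A : Set ℕ)
    (hA : ∀ h ∈ P, finrank K (Module.End.eigenspace (toEnd K g U h) (1/2)) ∈ A)
    (hg : ∀ a ∈ A, ∀ a' ∈ A, 0 < a → a < finrank K U → 0 < a' → a' < finrank K U →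
      ¬ finrank K U ∣ Nat.gcd a (finrank K U) * Nat.gcd a' (finrank K U))
    (h : g) (hh : h ∈ P) {a b : ℕ}
    (ha : finrank K (Module.End.eigenspace (toEnd K g U h) (1/2)) = a)
    (hb : finrank K (Module.End.eigenspace (toEnd K g U h) (-(1/2))) = b)
    (ha0 : 0 < a) (hb0 : 0 < b) (hab : a ≠ b)
    (hbin : ∀ m k : ℕ, 0 < k → k < m → a = (m + 1).choose (k + 1) → b = (m + 1).choose k → False) :
    ∀ z : Module.End K U, LinearMap.trace K U z = 0 →
      ∃ (y : g) (c : K), ∀ v : U, ⁅y, v⁆ = z v + c • v := by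
  have hns := Pool.Agent.SJ.ns_of_mult h ha hb ha0 hb0
  have hs : Pool.Agent.OU.PSimple K g U := by
    refine Pool.Agent.RM.psimple_gcd2 U P hP HT 0 (fun v => by rw [zero_lie]) ?_
    intro h₁ p₁ h₂ p₂ n₁ n₂
    rw [map_zero, LinearMap.range_zero, finrank_bot, Nat.gcd_zero_right]
    obtain ⟨x1, y1⟩ := Pool.Agent.OU.mult_pos h₁ (hP h₁ p₁) n₁
    obtain ⟨x2, y2⟩ := Pool.Agent.OU.mult_pos h₂ (hP h₂ p₂) n₂
    have e1 := (Pool.Agent.OU.sign_eq (K := K) (V := U) h₁ (hP h₁ p₁)).1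
    have e2 := (Pool.Agent.OU.sign_eq (K := K) (V := U) h₂ (hP h₂ p₂)).1
    exact hg _ (hA h₁ p₁) _ (hA h₂ p₂) x1 (by omega) x2 (by omega)
  obtain ⟨x, hx1, hx2⟩ := Pool.Agent.SJ.exists_sq h (hP h hh) hns
  refine Pool.Agent.OU.condU2 hs h (hP h hh) hns
    (Or.inr ⟨h, hP h hh, hns, by rw [ha, hb]; exact hab⟩) ha hb
    (Or.inr ⟨x, hx1, hx2, fun _ hE => ?_, fun hE => absurd hE hab⟩)
  obtain ⟨m, k, h1, h2, h3, h4, -⟩ := hE
  exact hbin m k h1 h2 h3 h4

end Pool.Agent.SJ2
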